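import Pool.Agent.H.MP_024832_nt.Main

/-!
# Fibrations over curves with finitely many, but at least one, everywhere locally soluble fibres

Let `E` be any integral scheme of dimension at most `1`, locally of finite type over `ℚ`, with a
rational point `P₀` (for example an elliptic curve of positive rank). Choose an affine open
neighbourhood `U` of `P₀` and a function `h` on `U` which vanishes at `P₀` and at only finitely many
rational points of `U`, and put `f = h⁴ + 1`. The fibration is the family of genus one curves

  `w² = f (f² u⁴ + 1)`, `w ≠ 0`,

over the open set `f ≠ 0` of `U`; it has double fibres at the zeros of `f`. Since `f > 0` and since a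
solution in `ℚ_ℓ` forces the `ℓ`-adic valuation of `f(P)` to be even, the fibre at `P` is everywhere
locally soluble only if `f(P) = h(P)⁴ + 1` is a square, which forces `h(P) = 0` (Fermat).
-/

open CategoryTheory Limits AlgebraicGeometry

namespace Pool.Agent.Results.MP_024832_nt.FiniteSolubleSet

open Pool.Agent.H.MP_024832_nt

open scoped MonObj

/-- **Positive answer to the question, for every base curve.** Let `E` be an integral scheme,
locally of finite type and of dimension at most one over `ℚ` (for instance an elliptic curve over
`ℚ` of positive rank), and let `P₀` be a rational point of `E`. There is a fibration `φ : X ⟶ E`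
(with `X` an integral variety over `ℚ`, `φ` dominant, and the generic fibre smooth and geometrically
irreducible) such that the set `Z(φ)` of the rational points of `E` whose fibre has points
everywhere locally is finite and contains `P₀`. -/
theorem result (E : Over SpecQ) [IsIntegral E.left] [LocallyOfFiniteType E.hom]
    (hdim : topologicalKrullDim E.left ≤ 1) (P₀ : RationalPoints E) :
    ∃ (X : Over SpecQ) (φ : X ⟶ E), IsFibration φ ∧ (Z φ).Finite ∧ P₀ ∈ Z φ :=
  main E hdim P₀

/-- The case of an elliptic curve `E` of positive rank, in the language of group schemes: `E` is a
group object in the category of `ℚ`-schemes, proper, smooth, geometrically irreducible and of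
dimension one, and some rational point of `E` has infinite order in the group `E(ℚ)`. -/
theorem elliptic_curve (E : Over SpecQ) [GrpObj E] [IsProper E.hom] [Smooth E.hom]
    [GeometricallyIrreducible E.hom] [IsIntegral E.left] (hdim : topologicalKrullDim E.left = 1)
    (hrank : ∃ P : Over.mk (𝟙 SpecQ) ⟶ E, ∀ n : ℕ, 0 < n → P ^ n ≠ 1) :
    ∃ (X : Over SpecQ) (φ : X ⟶ E), IsFibration φ ∧ (Z φ).Finite ∧ (Z φ).Nonempty := by
  obtain ⟨P, -⟩ := hrank
  obtain ⟨X, φ, h1, h2, h3⟩ := result E hdim.le P
  exact ⟨X, φ, h1, h2, P, h3⟩

end Pool.Agent.Results.MP_024832_nt.FiniteSolubleSet
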